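import Pool.Agent.DPL.StmtsA
import Pool.Agent.Helper59_DPS.All

/-!
# Squad DPL, row LEV: the level inequality
-/

namespace Pool.Agent.DPL.H09

open Finset Polynomial Pool.Agent.DPS

theorem inj_range {n k : ℕ} (hn : 2 * k ≤ n) :
    Set.InjOn (y n) (Finset.range (k + 1) : Finset ℕ) := by
  intro a ha b hb hab
  rw [Finset.mem_coe, Finset.mem_range] at ha hb
  rcases Nat.lt_trichotomy a b with h | h | h
  · exact absurd hab (H33.y_lt hn h (by omega)).ne
  · exact h
  · exact absurd hab (H33.y_lt hn h (by omega)).ne'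

theorem eval_eb {n k : ℕ} (hn : 2 * k ≤ n) {l j : ℕ} (hl : l ≤ k) (hj : j ≤ k) :
    (eb n k l).eval (y n j) = if j = l then 1 else 0 := by
  unfold eb
  by_cases h : j = l
  · subst h
    rw [if_pos rfl, Lagrange.eval_basis_self (inj_range hn) (Finset.mem_range.2 (by omega))]
  · rw [if_neg h, Lagrange.eval_basis_of_ne (Ne.symm h) (Finset.mem_range.2 (by omega))]

theorem eval_mp0 {n k : ℕ} (hn : 2 * k ≤ n) {j : ℕ} (hj : j ≤ k) :
    (mp n k 0).eval (y n j) = if j = 0 then (n.choose k : ℝ) else 0 := by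
  rw [H39.mev n k 0 j hn (Nat.zero_le _) hj]
  by_cases h : j = 0
  · subst h
    rw [if_pos le_rfl, if_pos rfl]
    simp
  · rw [if_neg (by omega), if_neg h]

theorem ip_M0 {n k : ℕ} (f : KS n k → ℝ) : ip f (M n k 0 f) = (∑ F, f F) ^ 2 := by
  rw [H88.qua, H88.sum_pc_zero]

theorem lev (hCER : CERStmt) (hODD : ODDStmt) : LEVStmt := by
  intro n k t l hl1 hlt htk hnn A hA T hT
  have ht : 1 ≤ t := by omega
  have hn : 2 * k ≤ n := H33.two_k_le ht (by omega) hnn
  have hlm : l ∈ Finset.Icc 1 t := Finset.mem_Icc.2 ⟨hl1, hlt⟩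
  obtain ⟨c, hc⟩ : ∃ c : ℝ, c = cc n k t 0 l := ⟨_, rfl⟩
  have hc0 : 0 ≤ c := by rw [hc]; exact H33.cc_nonneg _ _ _ _ _
  obtain ⟨s, hs⟩ : ∃ s : ℝ, s = cs n k t := ⟨_, rfl⟩
  have hs1 : 1 ≤ s := by
    rw [hs]
    unfold cs
    have := Finset.sum_nonneg fun l (_ : l ∈ Finset.Icc 1 t) => H33.cc_nonneg n k t 0 l
    linarith
  have hs0 : 0 < s := by linarith
  obtain ⟨N, hN⟩ : ∃ N : ℝ, N = (n.choose k : ℝ) := ⟨_, rfl⟩
  have hN0 : 0 < N := by
    rw [hN]
    exact_mod_cast Nat.choose_pos (by omega)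
  obtain ⟨m, hm⟩ : ∃ m : ℝ[X], m = eb n k l + C (c / N) * mp n k 0 := ⟨_, rfl⟩
  have hev : ∀ j, j ≤ k → m.eval (y n j) =
      (if j = l then 1 else 0) + (if j = 0 then c else 0) := by
    intro j hj
    rw [hm, eval_add, eval_mul, eval_C, eval_eb hn (by omega) hj, eval_mp0 hn hj, ← hN]
    congr 1
    split_ifs
    · exact div_mul_cancel₀ _ hN0.ne'
    · rw [mul_zero]
  have hsum : ∀ (p : ℝ[X]) (j : ℕ), (∀ l' ∈ Finset.Icc 1 t, p.eval (y n l') =
      if l' = l then 1 else 0) →
      ∑ l' ∈ Finset.Icc 1 t, cc n k t j l' * p.eval (y n l') = cc n k t j l := by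
    intro p j hp
    rw [Finset.sum_eq_single l]
    · rw [hp l hlm, if_pos rfl, mul_one]
    · intro b hb hbl
      rw [hp b hb, if_neg hbl, mul_zero]
    · intro h
      exact absurd hlm h
  have hmv : ∀ l' ∈ Finset.Icc 1 t, m.eval (y n l') = if l' = l then 1 else 0 := by
    intro l' hl'
    rw [Finset.mem_Icc] at hl'
    rw [hev l' (by omega), if_neg (show ¬ l' = 0 by omega), add_zero]
  have hebv : ∀ l' ∈ Finset.Icc 1 t, (eb n k l).eval (y n l') = if l' = l then 1 else 0 := by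
    intro l' hl'
    rw [Finset.mem_Icc] at hl'
    rw [eval_eb hn (by omega) (by omega)]
  -- the certificate
  have hα : (2 * c / s) * cs n k t = m.eval (y n 0) +
      ∑ l' ∈ Finset.Icc 1 t, cc n k t 0 l' * m.eval (y n l') := by
    rw [hsum m 0 hmv, hev 0 (Nat.zero_le _), if_neg (show ¬ 0 = l by omega), if_pos rfl, ← hs,
      div_mul_cancel₀ _ hs0.ne', ← hc]
    ring
  have hcer := hCER n k t ht (by omega) hn m (2 * c / s) hα
  have hstar := hcer.1 T hT
  have hineq := hcer.2 (by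
    intro j htj hjk
    have hmj : m.eval (y n j) = 0 := by
      rw [hev j hjk, if_neg (by omega), if_neg (by omega), add_zero]
    have hth0 : 0 ≤ th n k t j := by
      unfold th
      exact Finset.sum_nonneg fun l (_ : l ∈ Finset.Icc 1 t) => H33.cc_nonneg n k t j l
    have hα0 : 0 ≤ 2 * c / s := by positivity
    refine ⟨fun hodd => ?_, fun hev' => ?_⟩
    · rw [hmj, hsum m j hmv, zero_add, div_mul_eq_mul_div, le_div_iff₀ hs0]
      have h := hODD n k t j l hlm htj hjk htk hodd hnn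
      rw [← hs, ← hc] at h
      exact h
    · rw [hmj, hsum m j hmv, zero_sub]
      have hj2 : t + 2 ≤ j := by
        by_contra hcon
        have h2 : j = t + 1 := by omega
        rw [h2] at hev'
        obtain ⟨r, hr⟩ := hev'
        omega
      have h1 : th n k t j ≤ 1 := H59.the' n k t j ht hj2 hjk hnn
      have h2 := H33.cc_nonneg n k t j l
      have h3 : 0 ≤ 2 * c / s * (1 - th n k t j) := mul_nonneg hα0 (by linarith)
      linarith) A hA
  have hap : ∀ f : KS n k → ℝ, ip f (aeval (Y n k) m f) =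
      lw n k l f + c / N * (∑ F, f F) ^ 2 := by
    intro f
    rw [hm, map_add, map_mul, aeval_C, LinearMap.add_apply, Module.End.mul_apply,
      Module.algebraMap_end_apply, H59.mpo' n k 0 (Nat.zero_le _), H33.ip_add, H33.ip_smul,
      ip_M0]
    rfl
  rw [hap, H88.sum_ind] at hineq
  rw [hap, H88.sum_star] at hstar
  -- the second certificate
  have hα' : (c / s) * cs n k t = (eb n k l).eval (y n 0) +
      ∑ l' ∈ Finset.Icc 1 t, cc n k t 0 l' * (eb n k l).eval (y n l') := by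
    rw [hsum (eb n k l) 0 hebv, eval_eb hn (by omega) (Nat.zero_le _),
      if_neg (show ¬ 0 = l by omega), ← hs, div_mul_cancel₀ _ hs0.ne', ← hc, zero_add]
  have hstar2 := (hCER n k t ht (by omega) hn (eb n k l) (c / s) hα').1 T hT
  have hstar3 : lw n k l (star k T) = c / s * ip (star k T) (star k T) := hstar2
  have hS : 0 < ip (star k T) (star k T) := H24.ip_star_pos T (by omega) (by omega)
  obtain ⟨S, hSd⟩ : ∃ S : ℝ, S = ip (star k T) (star k T) := ⟨_, rfl⟩
  rw [← hSd] at hS hstar hstar3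
  rw [hstar3] at hstar ⊢
  obtain ⟨g, hg⟩ : ∃ g : ℝ, g = c / N := ⟨_, rfl⟩
  have hg0 : 0 ≤ g := by rw [hg]; positivity
  rw [← hg] at hstar hineq
  have h1 : g * S = c / s := by
    have h2 : g * S * S = c / s * S := by
      have : 2 * c / s = 2 * (c / s) := by ring
      rw [this] at hstar
      linarith
    exact mul_right_cancel₀ hS.ne' h2
  have h3 : 2 * c / s = 2 * (g * S) := by
    rw [h1]
    ring
  rw [h3] at hineq
  rw [← h1]
  nlinarith [mul_nonneg hg0 (sq_nonneg (S - (A.card : ℝ)))]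

end Pool.Agent.DPL.H09
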